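import Pool.Agent.helper31.RLS.Spec

/-!
# Rosser's linear sieve, row CA
-/

set_option autoImplicit false

namespace Pool.Agent.RLS

open Finset

theorem CA (h1 : BU_stmt) (h2 : PS_stmt) (h3 : GI_stmt) : CA_stmt := by
  intro u A F f hu hD g om et e y L P hom het he homy hyL hLu hG hlow
  obtain ⟨gi1, gi2, -, gi4⟩ := h3 g om et y P hom homy hG
  have hy0 : 0 < y := lt_of_lt_of_le hom homy
  have hL0 : 0 < L := lt_of_lt_of_le hy0 hyL
  have hg0 : ∀ p ∈ P, 0 ≤ g p := fun p hp => (hG.g01 p hp).1
  have hgs : 0 ≤ ∑ p ∈ P, g p := Finset.sum_nonneg hg0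
  have hA0 : 0 < A := by linarith [hD.A3]
  have hFy : L / y ≤ 3 → om / y * F (L / y) = om * A / L := by
    intro h
    have h4 : 1 ≤ L / y := by rw [le_div_iff₀ hy0]; linarith
    rw [hD.Fs _ h4 h]
    field_simp
  rw [(h1 g L P).1]
  by_cases hL3 : L < 3 * om
  · have hP' : P.filter (fun p : ℕ => 3 * Real.log p < L) = ∅ := by
      rw [Finset.filter_eq_empty_iff]
      intro p hp hlt
      have := (hG.rng p hp).1
      linarith
    rw [hP', Finset.sum_empty, hFy (by rw [div_le_iff₀ hy0]; nlinarith)]
    have h5 : 1 ≤ om * A / L := by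
      rw [le_div_iff₀ hL0]
      nlinarith [hD.A3]
    have h6 : 0 ≤ (et + e) * ∑ p ∈ P, g p := mul_nonneg (by linarith) hgs
    linarith
  · push Not at hL3
    obtain ⟨P', hP'⟩ : ∃ P' : Finset ℕ, P' = P.filter (fun p : ℕ => 3 * Real.log p < L) := ⟨_, rfl⟩
    obtain ⟨a, ha⟩ : ∃ a : ℝ, a = max (L / y) 3 := ⟨_, rfl⟩
    obtain ⟨b, hb⟩ : ∃ b : ℝ, b = L / om := ⟨_, rfl⟩
    obtain ⟨ka, hka⟩ : ∃ ka : ℝ, ka = om / L := ⟨_, rfl⟩
    rw [← hP']
    have ha3 : 3 ≤ a := by rw [ha]; exact le_max_right _ _
    have hay : L / y ≤ a := by rw [ha]; exact le_max_left _ _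
    have hb3 : 3 ≤ b := by rw [hb, le_div_iff₀ hom]; linarith
    have hab : a ≤ b := by
      rw [ha]
      apply max_le _ hb3
      rw [hb]
      exact div_le_div_of_nonneg_left hL0.le hom homy
    have hbu : b ≤ u := by rw [hb, div_le_iff₀ hom]; exact hLu
    have hka0 : 0 ≤ ka := by rw [hka]; positivity
    have hkab : ka * b = 1 := by rw [hka, hb]; field_simp
    have hmem : ∀ p, p ∈ P' ↔ p ∈ P ∧ 3 * Real.log p < L := by
      intro p
      rw [hP', Finset.mem_filter]
    have hlog : ∀ p ∈ P, 0 < Real.log p := fun p hp => lt_of_lt_of_le hom (hG.rng p hp).1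
    have hV0 : ∀ p ∈ P, 0 ≤ VV g (bel P p) := by
      intro p hp
      unfold VV
      apply Finset.prod_nonneg
      intro q hq
      have : q ∈ P := (Finset.mem_filter.1 hq).1
      have := (hG.g01 q this).2
      linarith
    have hxa : ∀ p ∈ P', a ≤ L / Real.log p := by
      intro p hp
      obtain ⟨hpP, hp3⟩ := (hmem p).1 hp
      rw [ha]
      apply max_le
      · exact div_le_div_of_nonneg_left hL0.le (hlog p hpP) (hG.rng p hpP).2
      · rw [le_div_iff₀ (hlog p hpP)]; exact hp3.le
    have hxb : ∀ p ∈ P', L / Real.log p ≤ b := by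
      intro p hp
      obtain ⟨hpP, hp3⟩ := (hmem p).1 hp
      rw [hb]
      exact div_le_div_of_nonneg_left hL0.le hom (hG.rng p hpP).1
    have hf01 : ∀ s, a ≤ s → s ≤ b → 0 ≤ f (s - 1) ∧ f (s - 1) ≤ 1 :=
      fun s hs hs' => hD.f1 (s - 1) (by linarith) (by linarith)
    -- partial summation
    have hps := (h2 P' (fun p => g p * VV g (bel P p)) (fun p => L / Real.log p) a b ka et
      (fun s => f (s - 1)) hab hka0 het ?_ ?_ ?_ ?_ ?_).1 ?_
    rotate_left
    · intro p hp q hq hpq
      have hpP := ((hmem p).1 hp).1
      have hqP := ((hmem q).1 hq).1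
      have l1 := hlog p hpP
      have l2 := hlog q hqP
      have h7 : Real.log p = Real.log q := by
        simp only at hpq
        rw [div_eq_div_iff l1.ne' l2.ne'] at hpq
        exact (mul_left_cancel₀ hL0.ne' hpq).symm
      have p0 : (0 : ℝ) < p := by
        rcases Nat.eq_zero_or_pos p with h | h
        · rw [h] at l1; simp at l1
        · exact_mod_cast h
      have q0 : (0 : ℝ) < q := by
        rcases Nat.eq_zero_or_pos q with h | h
        · rw [h] at l2; simp at l2
        · exact_mod_cast h
      exact_mod_cast Real.log_injOn_pos p0 q0 h7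
    · intro p hp
      have hpP := ((hmem p).1 hp).1
      exact ⟨mul_nonneg (hg0 p hpP) (hV0 p hpP), hxa p hp, hxb p hp⟩
    · intro σ hσ1 hσ2
      have hσ0 : 0 < σ := by linarith
      have hset : P'.filter (fun p : ℕ => σ < L / Real.log p) =
          P.filter (fun p : ℕ => Real.log p < L / σ) := by
        ext p
        rw [Finset.mem_filter, Finset.mem_filter, hmem]
        constructor
        · rintro ⟨⟨hpP, -⟩, h⟩
          refine ⟨hpP, ?_⟩
          rw [lt_div_iff₀ (hlog p hpP)] at h
          rw [lt_div_iff₀ hσ0]
          linarith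
        · rintro ⟨hpP, h⟩
          have l1 := hlog p hpP
          rw [lt_div_iff₀ hσ0] at h
          refine ⟨⟨hpP, ?_⟩, ?_⟩
          · nlinarith
          · rw [lt_div_iff₀ l1]; linarith
      have ht1 : om ≤ L / σ := by
        rw [le_div_iff₀ hσ0]
        have : σ ≤ L / om := by rw [← hb]; exact hσ2
        rw [le_div_iff₀ hom] at this
        linarith
      have ht2 : L / σ ≤ y := by
        rw [div_le_iff₀ hσ0]
        have : L / y ≤ σ := hay.trans hσ1
        rw [div_le_iff₀ hy0] at this
        linarith
      have h8 := hG.opn (L / σ) ht1 ht2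
      rw [hset, gi4 (L / σ)]
      have h9 : ka * (b - σ) = 1 - om / (L / σ) := by
        rw [mul_sub, hkab, hka]
        field_simp
      rw [h9, abs_sub_comm]
      have h10 : 1 - om / (L / σ) - (1 - VV g (P.filter fun p : ℕ => Real.log p < L / σ)) =
          VV g (P.filter fun p : ℕ => Real.log p < L / σ) - om / (L / σ) := by ring
      rw [h10]
      exact h8
    · by_cases hy3 : y < L / 3
      · have hset : P' = P := by
          rw [hP', Finset.filter_eq_self]
          intro p hp
          have := (hG.rng p hp).2
          linarith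
        have ha' : a = L / y := by
          rw [ha]
          apply max_eq_left
          rw [le_div_iff₀ hy0]
          linarith
        rw [hset, gi2]
        have h9 : ka * (b - a) = 1 - om / y := by
          rw [mul_sub, hkab, hka, ha']
          field_simp
        rw [h9, abs_sub_comm]
        have h10 : 1 - om / y - (1 - VV g P) = VV g P - om / y := by ring
        rw [h10]
        exact hG.tot
      · push Not at hy3
        have hset : P' = P.filter (fun p : ℕ => Real.log p < L / 3) := by
          rw [hP']
          apply Finset.filter_congr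
          intro p _
          rw [lt_div_iff₀ (by norm_num : (0 : ℝ) < 3), mul_comm]
        have ha' : a = 3 := by
          rw [ha]
          apply max_eq_right
          rw [div_le_iff₀ hy0]
          linarith
        rw [hset, gi4 (L / 3)]
        have h9 : ka * (b - a) = 1 - om / (L / 3) := by
          rw [mul_sub, hkab, hka, ha']
          field_simp
        rw [h9, abs_sub_comm]
        have h10 : 1 - om / (L / 3) - (1 - VV g (P.filter fun p : ℕ => Real.log p < L / 3)) =
            VV g (P.filter fun p : ℕ => Real.log p < L / 3) - om / (L / 3) := by ring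
        rw [h10]
        exact hG.opn (L / 3) (by linarith) hy3
    · intro s hs
      exact (hf01 s hs.1 hs.2).1
    · intro s hs t ht hst
      exact hD.fm ⟨by linarith [hs.1], by linarith [hs.2]⟩ ⟨by linarith [ht.1], by linarith [ht.2]⟩
        (by linarith)
    -- the main inequality
    have hFi := hD.Fi a b ha3 hab hbu
    rw [← hFi] at hps
    have hFb : 1 ≤ F b := hD.F1 b (by linarith) hbu
    have hψb := (hf01 b hab le_rfl).2
    have hkaF : ka * (a * F a) = om / y * F (L / y) := by
      rcases le_total (L / y) 3 with h | h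
      · have ha' : a = 3 := by rw [ha]; exact max_eq_right h
        rw [hFy h, ha', hD.Fs 3 (by norm_num) le_rfl, hka]
        field_simp
      · have ha' : a = L / y := by rw [ha]; exact max_eq_left h
        rw [ha', ← mul_assoc]
        congr 1
        rw [hka]
        field_simp
    have hmain : 1 - om / y * F (L / y) - et ≤
        ∑ p ∈ P', g p * VV g (bel P p) * f (L / Real.log p - 1) := by
      refine le_trans ?_ hps
      have h11 : ka * (b * F b) = F b := by rw [← mul_assoc, hkab, one_mul]
      have h12 : et * f (b - 1) ≤ et := by nlinarith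
      have h13 : ka * (b * F b - a * F a) = F b - om / y * F (L / y) := by
        rw [mul_sub, h11, hkaF]
      rw [h13]
      linarith
    -- termwise
    have hterm : ∀ p ∈ P', g p * VV g (bel P p) * f (L / Real.log p - 1) - (et + e) * g p ≤
        g p * SS false g (L - Real.log p) (bel P p) := by
      intro p hp
      obtain ⟨hpP, hp3⟩ := (hmem p).1 hp
      have l1 := hlog p hpP
      have h14 := hlow p hpP hp3
      have h15 : (L - Real.log p) / Real.log p = L / Real.log p - 1 := by
        field_simp
      rw [h15] at h14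
      obtain ⟨f0, f1⟩ := hf01 _ (hxa p hp) (hxb p hp)
      have h16 := abs_le.1 (gi1 p hpP).tot
      have h17 : VV g (bel P p) * f (L / Real.log p - 1) - (et + e) ≤
          SS false g (L - Real.log p) (bel P p) := by
        have h18 : VV g (bel P p) * f (L / Real.log p - 1) ≤
            (om / Real.log p + et) * f (L / Real.log p - 1) :=
          mul_le_mul_of_nonneg_right (by linarith [h16.2]) f0
        have h19 : et * f (L / Real.log p - 1) ≤ et := by nlinarith
        rw [add_mul] at h18
        linarith
      have h20 := mul_le_mul_of_nonneg_left h17 (hg0 p hpP)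
      rw [mul_sub, ← mul_assoc] at h20
      linarith
    have hsum := Finset.sum_le_sum hterm
    rw [Finset.sum_sub_distrib, ← Finset.mul_sum] at hsum
    have hsub : ∑ p ∈ P', g p ≤ ∑ p ∈ P, g p := by
      apply Finset.sum_le_sum_of_subset_of_nonneg
      · rw [hP']; exact Finset.filter_subset _ _
      · intro p hp _
        exact hg0 p hp
    have h21 : (et + e) * ∑ p ∈ P', g p ≤ (et + e) * ∑ p ∈ P, g p :=
      mul_le_mul_of_nonneg_left hsub (by linarith)
    linarith

end Pool.Agent.RLS
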